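import Pool.Agent.Q192.FT.Main
import Pool.Agent.Q192.FT.Flags

/-!
# Finitude of attractors near diffeomorphisms which do not decrease a function with critical tori

Author: helper192. Definitions: `Pool/Agent/Q192/FT/Defs.lean` (`CritTorus`, `CritTori`, `Tame`),
`Pool/Agent/H728R2/FA/Defs.lean` (attractors), `Pool/Agent/H718R2/G0.lean` (Whitney topology),
`Pool/Agent/Y318/MN/Dyn.lean` (`CritInv`), `Pool/Agent/H637R2/TD/Defs.lean` (`IsFlagDiffeo`),
`Pool/Agent/Y318/LF/Defs.lean` (`PreservesFlag`), `Pool/Agent/H728R2/OS/Defs.lean` (tori).

Starting theorems used: `MonotoneManifolds` (helper318; the case without tori), `FlagDiffeos`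
(helpers 637, 678, 728), `LinearFlags` (helpers 318, 210, 301, 785, 925).
-/

set_option autoImplicit false

open scoped Manifold ContDiff Topology

universe u

namespace Pool.Agent.Results.MP_3a2b62_an.CriticalTori

open MeasureTheory Set Pool.Agent.H718R2.G Pool.Agent.H728R2.OS Pool.Agent.Y318.MN
  Pool.Agent.Q192.FT

open Pool.Agent.H728R2.FA (omegaLim FiniteAttractors)

/-- Let `N` be a closed manifold, `F` a `C^r` diffeomorphism of `N`, `1 ≤ r ≤ ∞`, and `h` a smooth
function on `N` with `h ∘ F ≥ h` (`Situation.mono`). Suppose that the points whose whole `F`-orbit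
consists of critical points of `h` are contained (`Covered`) in finitely many closed invariant
transitive sets `M i` of critical points (`TransSets`) and finitely many cycles of critical tori of
any dimensions, isolated in the critical set (`CritTorus`), all these sets being pairwise disjoint,
and that on the tori the return maps `f j` of `F` are tame (`Tame`; for instance any orientation
preserving `C^r` diffeomorphism of a critical circle). Then every neighbourhood of `F` in the `C^r`
topology contains `G` (`Finitude`) such that `h ∘ G ≥ h`, every `ω`-limit set of `G` is contained in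
one of the `M i` or in a periodic orbit in one of the tori, and `G` has finitely many attractors
covering `N` up to a null set, for every measure on `N` (in particular for the volume of a
Riemannian metric). -/
theorem result (n : ℕ) (N : Type u) [TopologicalSpace N] [T2Space N] [CompactSpace N]
    [ChartedSpace (V n) N] [IsManifold (𝓡 n) ∞ N] (r : ℕ∞) (hr : 1 ≤ r) (F : DiffM n N r)
    (h : N → ℝ) (l : ℕ) (M : Fin l → Set N) (p : ℕ) (d m : Fin p → ℕ) (E : Fin p → V n → N)
    (f : ∀ j, Torus (d j) ≃ₜ Torus (d j)) (hS : Situation n r h F M d m E f)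
    (hcov : Covered n h F M d m E) (U : Set (DiffM n N r)) (hU : IsOpen[strongTop n N r] U)
    (hFU : F ∈ U) : ∃ G ∈ U, Finitude n h F G M d m E := by
  obtain ⟨G, hG, h1, h2, h3⟩ := main hr F hS.smooth hS.mono M hS.sets.closed hS.sets.inv
    hS.sets.dis hS.sets.crit hS.sets.trans d m E f hS.tori.tori hS.tori.dis hS.dis hcov
    (fun j => by
      rcases hS.tori.tame j with h1 | ⟨W, h1⟩ | h1
      · exact approx_flag hr h1
      · exact approx_linear hr h1
      · exact h1) U hU hFU
  refine ⟨G, hG, h1, fun q => (h2 q).imp id ?_, h3⟩
  rintro ⟨y, hy, h4⟩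
  obtain ⟨j, hj⟩ := mem_iUnion.1 hy
  exact ⟨j, y, hj, h4⟩

end Pool.Agent.Results.MP_3a2b62_an.CriticalTori
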