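import Pool.Agent.Q85.PA.E

/-!
# Finitude of attractors for flows with a torus symmetry

The torus `𝕋^k` acts on a compact metric space `M`, and the flow `Φ` commutes with the action. If the
flow `Ψ` induced on the orbit space has finitely many attractors covering almost everything, then so
has the flow `t θ + Φ t p` for almost every drift `θ` in `ℝ^k`.

Consequence: for every `C^1` vector field `X` on `𝕋^(k+1)` which is invariant under the translations
by `𝕋^k`, and for almost every constant vector field `c`, the flow of `X + c` has finitely many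
attractors whose basins cover the torus up to a null set.

`FiniteFlowAttractors`, `IsFlowAttractor`, `omegaFlow` are the notions of the problem for flows.
-/

set_option autoImplicit false

namespace Pool.Agent.Results.MP_3a2b62_an.InvariantFields

open MeasureTheory Pool.Agent.H728R2.OS Q85.PA

/-- **Finitude of attractors for flows with a torus symmetry.** -/
theorem result (k : ℕ) :
    -- (1) flows on compact metric spaces commuting with an action of the torus
    (∀ (M Y : Type) [MetricSpace M] [CompactSpace M] [MeasurableSpace M] [BorelSpace M]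
      [MetricSpace Y] [CompactSpace Y] [MeasurableSpace Y] [BorelSpace Y]
      [AddAction (Torus k) M] [ContinuousVAdd (Torus k) M] (μ : Measure M) (Φ : Flow ℝ M)
      (Ψ : Flow ℝ Y) (π : M → Y), IsOrbitMap k π →
      (∀ (t : ℝ) (s : Torus k) (p : M), Φ t (s +ᵥ p) = s +ᵥ Φ t p) →
      (∀ (t : ℝ) (p : M), π (Φ t p) = Ψ t (π p)) → FiniteFlowAttractors (μ.map π) Ψ →
      ∀ᵐ θ : Fin k → ℝ, ∃ Φ' : Flow ℝ M, (∀ (t : ℝ) (p : M), Φ' t p = toTorus (t • θ) +ᵥ Φ t p) ∧
        FiniteFlowAttractors μ Φ') ∧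
    -- (2) vector fields `(φ y, v y)` on `𝕋^k × 𝕋`
    (∀ (φ : ℝ → Fin k → ℝ) (v : ℝ → ℝ), ContDiff ℝ 1 φ → ContDiff ℝ 1 v →
      (∀ y, φ (y + 1) = φ y) → (∀ y, v (y + 1) = v y) →
      ∀ᵐ a : ℝ, ∀ᵐ θ : Fin k → ℝ, ∃ Φ : Flow ℝ (Torus k × Circ),
        Generates (fun y => φ y + θ) (fun y => v y + a) Φ ∧
        (∀ Φ', Generates (fun y => φ y + θ) (fun y => v y + a) Φ' → Φ' = Φ) ∧
        FiniteFlowAttractors (volume : Measure (Torus k × Circ)) Φ) := by
  refine ⟨?_, ?_⟩
  · intro M Y _ _ _ _ _ _ _ _ _ _ μ Φ Ψ π hπ hΦ hΦΨ hg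
    filter_upwards [flift_ae μ hΦ hπ hΦΨ hg] with θ hθ
    exact ⟨drift Φ hΦ θ, fun t p => rfl, hθ⟩
  · intro φ v hφ hv pφ pv
    exact inv_fields hφ hv pφ pv

end Pool.Agent.Results.MP_3a2b62_an.InvariantFields
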