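import Pool.Agent.Q263.DH.Fine
import Pool.Agent.Q285.DH.Pert

/-!
# Finitely many attractors near diffeomorphisms with normally hyperbolic tori

Project DH of helper263; perturbation lemma by helper285 and helper192.  Definitions:
`Pool/Agent/Q263/DH/Def.lean` (`NormalHyp`), `Pool/Agent/Q263/DH/Def2.lean` (`TransFam`,
`FewPieces`, `TameF`, `AttractorCovered`), `Pool/Agent/Q263/IC/Def.lean` (`Tube`, `TorusCycle`),
`Pool/Agent/Q192/FT/Defs.lean` (`emb`, `cyc`, `Approx`), `Pool/Agent/H728R2/OS/Defs.lean` (`Torus`,
`toTorus`, `ChainRec`, `IsDiffeo`, `CkClose`), `Pool/Agent/H728R2/FA/Defs.lean` (`omegaLim`,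
`IsAttractor`, `FiniteAttractors`), `Pool/Agent/H718R2/G0.lean` (`V`, `DiffM`, `strongTop`).
-/

set_option autoImplicit false

open scoped Manifold ContDiff Topology
open Set MeasureTheory Pool.Agent.H718R2.G Pool.Agent.H728R2.OS Pool.Agent.H728R2.FA Q263.DH

universe u

namespace Pool.Agent.Results.MP_3a2b62_an.NormallyHyperbolicTori

/-- Let `F` be a `C^r` diffeomorphism of the closed manifold `N`, `1 ≤ r ≤ ∞`, whose chain recurrent
set is contained in the union of finitely many closed invariant transitive sets and of finitely
many cycles of invariant tori with tame return maps and without nonzero bounded orbits of the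
derivative in the normal bundle, all disjoint. Then every `C^r` neighbourhood of `F` contains a
diffeomorphism `G` such that, for every measure on `N`, finitely many attractors of `G` attract
almost every point. -/
theorem result (n : ℕ) (N : Type u) [MetricSpace N] [CompactSpace N] [ChartedSpace (V n) N]
    [IsManifold (𝓡 n) ∞ N] (r : ℕ∞) (hr : 1 ≤ r) (F : DiffM n N r) (h : AttractorCovered n r F)
    (U : Set (DiffM n N r)) (hU : IsOpen[strongTop n N r] U) (hFU : F ∈ U) :
    ∃ G ∈ U, ∀ (_ : MeasurableSpace N) (μ : Measure N), FiniteAttractors μ G :=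
  attractors Q285.DH.pert hr F h U hU hFU

end Pool.Agent.Results.MP_3a2b62_an.NormallyHyperbolicTori
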