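import Pool.Agent.Q85.PA.J

/-!
# Finitude of attractors for systems with a torus symmetry

The torus `𝕋^k` acts on a compact metric space `M`, and the homeomorphism `f` of `M` normalises the
action, `f (s + p) = A s + f p`, where no eigenvalue of the integer matrix `A` is a root of unity
other than `1` (for instance `A = 1`, or an ergodic automorphism). If the homeomorphism `g` of the
orbit space induced by `f` has finitely many attractors covering almost everything, then so has the
map `p ↦ θ + f p` for almost every `θ` in `𝕋^k`: the preimage of a transitive invariant set of `g` is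
transitive for almost every `θ`.

Consequences in the `C^r` topology: the class of limits of `C^r` diffeomorphisms with finitely many
attractors is closed under the extensions `(x, y) ↦ (A x + φ y, g y)`; this holds in particular when
`g` preserves a flag of (linear) foliations of a torus of any dimension.

`IsDiffeo`, `CkClose`, `FiniteAttractors`, `IsFlagDiffeo`, `PreservesFlag` are the definitions of the
starting files; `mulT A` is the endomorphism of `𝕋^k` with the matrix `A`.
-/

set_option autoImplicit false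

namespace Pool.Agent.Results.MP_3a2b62_an.TorusSymmetry

open MeasureTheory Pool.Agent.H728R2.OS Pool.Agent.H728R2.FA Q85.PA

/-- `g` is a limit, in the `C^r` topology, of `C^r` diffeomorphisms with finitely many attractors
whose basins cover almost every point. -/
def IsLimit {W Y : Type} [NormedAddCommGroup W] [NormedSpace ℝ W] [TopologicalSpace Y]
    [MeasurableSpace Y] (ρ : W → Y) (ν : Measure Y) (r : ℕ∞) (g : Y ≃ₜ Y) : Prop :=
  ∀ m : ℕ, (m : ℕ∞) ≤ r → ∀ ε : ℝ, 0 < ε →
    ∃ g' : Y ≃ₜ Y, IsDiffeo ρ r g' ∧ CkClose ρ m ε g g' ∧ FiniteAttractors ν g'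

/-- `f` is a limit, in the `C^r` topology, of `C^r` diffeomorphisms of the same form
`(x, y) ↦ (A x + φ y, g y)` with finitely many attractors covering almost everything. -/
def IsLimitExt {k : ℕ} {W Y : Type} [NormedAddCommGroup W] [NormedSpace ℝ W] [TopologicalSpace Y]
    [MeasurableSpace Y] (A : Matrix (Fin k) (Fin k) ℤ) (ρ : W → Y) (ν : Measure Y) (r : ℕ∞)
    (f : (Torus k × Y) ≃ₜ (Torus k × Y)) : Prop :=
  ∀ m : ℕ, (m : ℕ∞) ≤ r → ∀ ε : ℝ, 0 < ε →
    ∃ (f' : (Torus k × Y) ≃ₜ (Torus k × Y)) (g' : Y ≃ₜ Y), IsTorusExt A f' g' ∧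
      IsDiffeo (prodCov k ρ) r f' ∧ CkClose (prodCov k ρ) m ε f f' ∧
      FiniteAttractors ((volume : Measure (Torus k)).prod ν) f'

/-- **Finitude of attractors for systems with a torus symmetry.** -/
theorem result {k : ℕ} {A : Matrix (Fin k) (Fin k) ℤ} (hA : A.det ≠ 0)
    (hA' : ∀ m : ℕ, 1 ≤ m → (∑ i ∈ Finset.range m, A ^ i).det ≠ 0) :
    -- (1) actions of the torus on compact metric spaces
    (∀ (M Y : Type) [MetricSpace M] [CompactSpace M] [MeasurableSpace M] [BorelSpace M]
      [MetricSpace Y] [CompactSpace Y] [MeasurableSpace Y] [BorelSpace Y]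
      [AddAction (Torus k) M] [ContinuousVAdd (Torus k) M] (μ : Measure M) (f : M ≃ₜ M)
      (g : Y ≃ₜ Y) (π : M → Y), IsOrbitMap k π →
      (∀ (s : Torus k) (p : M), f (s +ᵥ p) = mulT A s +ᵥ f p) → (∀ p, π (f p) = g (π p)) →
      FiniteAttractors (μ.map π) g → ∀ᵐ θ : Torus k, FiniteAttractors μ fun p => θ +ᵥ f p) ∧
    -- (2) extensions in the `C^r` topology
    (∀ (W Y : Type) [NormedAddCommGroup W] [NormedSpace ℝ W] [MetricSpace Y] [CompactSpace Y]
      [MeasurableSpace Y] [BorelSpace Y] (ρ : W → Y) (ν : Measure Y) [SFinite ν] (r : ℕ∞)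
      (f : (Torus k × Y) ≃ₜ (Torus k × Y)) (g : Y ≃ₜ Y), IsDiffeo (prodCov k ρ) r f →
      IsTorusExt A f g → IsLimit ρ ν r g → IsLimitExt A ρ ν r f) ∧
    -- (3) extensions of the diffeomorphisms of tori which preserve flags of foliations
    (∀ (d : ℕ) (r : ℕ∞), 1 ≤ r → ∀ (f : (Torus k × Torus d) ≃ₜ (Torus k × Torus d))
      (g : Torus d ≃ₜ Torus d), IsDiffeo (prodCov k toTorus) r f → IsTorusExt A f g →
      (Pool.Agent.H637R2.TD.IsFlagDiffeo r g ∨ ∃ V, Pool.Agent.Y318.LF.PreservesFlag r g V) →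
      IsLimitExt A toTorus (volume : Measure (Torus d)) r f) := by
  refine ⟨?_, ?_, ?_⟩
  · intro M Y _ _ _ _ _ _ _ _ _ _ μ f g π hπ hf hfg hg
    exact lift_ae hA hA' μ f hf g π hπ hfg hg
  · intro W Y _ _ _ _ _ _ ρ ν _ r f g hd hf hg m hm ε hε
    obtain ⟨f', ⟨g', -, h1⟩, h2, h3, h4⟩ := ext_dense hA hA' ρ ν r f g hd hf (fun _ => True)
      (fun m hm ε hε => by
        obtain ⟨g', h1, h2, h3⟩ := hg m hm ε hε
        exact ⟨g', trivial, h1, h2, h3⟩) m hm ε hε
    exact ⟨f', g', h1, h2, h3, h4⟩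
  · intro d r hr f g hd hf hg m hm ε hε
    obtain ⟨f', ⟨g', -, h1⟩, h2, h3, h4⟩ := ext_dense hA hA' toTorus volume r f g hd hf
      (fun _ => True) (approx_flags hr hg) m hm ε hε
    exact ⟨f', g', h1, h2, h3, h4⟩

end Pool.Agent.Results.MP_3a2b62_an.TorusSymmetry
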